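import Pool.Agent.H.MP_694475_co.Sb.Rec

/-!
# Colour classes after the removal of two indices of the same colour

* `odd_Re`: the class of `c i` loses the two elements `i`, `j`, the others are unchanged (cardinalities of filters; `Finset.card_filter` over the subtype
  via `Finset.card_subtype` / `Finset.filter_erase`, or write the cardinality of the class in `ι` as that in `Re i j` plus
  `if b = c i then 2 else 0`).
* `odd_inj`: if `c` is injective every class has at most one element, and `odd c` is the image of `c`.
* `wt_ex`: count the ones of `ex i j s t y`.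
-/

set_option autoImplicit false

namespace Pool.Agent.H.SB694

open Pool.Agent.H.AD694

variable {ι β : Type} [Fintype ι] [DecidableEq ι] [Fintype β] [DecidableEq β]

/-- the colours of the remaining indices -/
def cr (c : ι → β) (i j : ι) : Re i j → β := fun v => c v.1

omit [Fintype β] [DecidableEq β] in
private theorem Cnt_split (f : ι → ℕ) {i j : ι} (hij : i ≠ j) :
    ∑ v, f v = (∑ v : Re i j, f v.1) + (f i + f j) := by
  have h1 := Finset.sum_filter_add_sum_filter_not Finset.univ (fun v : ι => v ≠ i ∧ v ≠ j) f
  have h2 : (Finset.univ.filter fun v : ι => ¬ (v ≠ i ∧ v ≠ j)) = {i, j} := by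
    ext v
    simp only [Finset.mem_filter, Finset.mem_univ, true_and, Finset.mem_insert,
      Finset.mem_singleton]
    tauto
  have h3 : ∑ v ∈ Finset.univ.filter (fun v : ι => v ≠ i ∧ v ≠ j), f v = ∑ v : Re i j, f v.1 :=
    Finset.sum_subtype _ (fun v => by simp) f
  rw [← h1, h2, h3, Finset.sum_pair hij]

omit [Fintype β] [DecidableEq β] in
private theorem Cnt_card (P : ι → Prop) [DecidablePred P] {i j : ι} (hij : i ≠ j) :
    (Finset.univ.filter P).card = (Finset.univ.filter fun v : Re i j => P v.1).card +
      ((if P i then 1 else 0) + if P j then 1 else 0) := by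
  rw [Finset.card_filter, Finset.card_filter]
  exact Cnt_split (fun v => if P v then 1 else 0) hij

theorem odd_Re (c : ι → β) {i j : ι} (hij : i ≠ j) (h : c i = c j) : odd (cr c i j) = odd c := by
  ext b
  unfold odd
  rw [Finset.mem_filter, Finset.mem_filter]
  have h1 := Cnt_card (fun v => c v = b) hij
  have h2 : (Finset.univ.filter fun v : Re i j => cr c i j v = b) =
      Finset.univ.filter fun v : Re i j => c v.1 = b := rfl
  rw [h2, h1, ← h]
  simp only [Finset.mem_univ, true_and]
  by_cases hb : c i = b
  · rw [if_pos hb, Nat.odd_add]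
    exact ⟨fun h3 => ⟨fun _ => ⟨1, rfl⟩, fun _ => h3⟩, fun h3 => h3.2 ⟨1, rfl⟩⟩
  · rw [if_neg hb, add_zero, add_zero]

theorem odd_inj (c : ι → β) (h : Function.Injective c) :
    (∀ i, c i ∈ odd c) ∧ ∀ b ∈ odd c, ∃ i, c i = b := by
  constructor
  · intro i
    unfold odd
    rw [Finset.mem_filter]
    refine ⟨Finset.mem_univ _, ?_⟩
    have h1 : (Finset.univ.filter fun v => c v = c i) = {i} := by
      ext v
      rw [Finset.mem_filter, Finset.mem_singleton]
      exact ⟨fun h2 => h h2.2, fun h2 => ⟨Finset.mem_univ _, by rw [h2]⟩⟩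
    rw [h1, Finset.card_singleton]
    exact odd_one
  · intro b hb
    unfold odd at hb
    have h1 := (Finset.mem_filter.1 hb).2
    obtain ⟨v, hv⟩ := Finset.card_pos.1 h1.pos
    exact ⟨v, (Finset.mem_filter.1 hv).2⟩

theorem wt_ex (c : ι → β) {i j : ι} (hij : i ≠ j) (h : c i = c j) (b : β) (s t : ZMod 2)
    (y : Re i j → ZMod 2) : wt c b (ex i j s t y) = wt (cr c i j) b y +
      if b = c i then (if s = 1 then 1 else 0) + (if t = 1 then 1 else 0) else 0 := by
  unfold wt
  rw [Cnt_card (fun v => c v = b ∧ ex i j s t y v = 1) hij, ex_i, ex_j hij, ← h]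
  have h1 : (Finset.univ.filter fun v : Re i j => c v.1 = b ∧ ex i j s t y v.1 = 1) =
      Finset.univ.filter fun v : Re i j => cr c i j v = b ∧ y v = 1 := by
    refine Finset.filter_congr fun v _ => ?_
    rw [ex_v]
    rfl
  rw [h1]
  congr 1
  by_cases hb : b = c i
  · simp [hb]
  · have hb' : ¬ c i = b := fun h2 => hb h2.symm
    simp [hb, hb']

end Pool.Agent.H.SB694
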