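import Pool.Agent.H.MP_694475_co.AD.Walsh

/-!
# Functions that are symmetric within blocks: definitions

`T f a`: Walsh sums over an arbitrary finite index type `ι`. `Re i j`: the indices different from `i`, `j`. `ex i j s t y`: the vector with values
`s` at `i`, `t` at `j` and `y` elsewhere. `SymB c f`: `f` is invariant under the transpositions of indices of the same colour. `odd c`: the
colours of odd multiplicity. `wt c b x`: the number of ones of colour `b`. `Fb c g`: the extremal function
`∑ b, C(wt b, 2) + g (parities of the odd colours)`.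
-/

set_option autoImplicit false

namespace Pool.Agent.H.SB694

open Pool.Agent.H.AD694

/-- Walsh sums over an arbitrary finite index type -/
def T {ι : Type} [Fintype ι] [DecidableEq ι] (f : (ι → ZMod 2) → ZMod 2) (a : ι → ZMod 2) : ℤ :=
  ∑ x : ι → ZMod 2, sgn (f x + ∑ i, a i * x i)

/-- the indices different from `i` and `j` -/
abbrev Re {ι : Type} (i j : ι) : Type := {v : ι // v ≠ i ∧ v ≠ j}

/-- the vector with values `s` at `i`, `t` at `j`, `y` elsewhere -/
def ex {ι : Type} [DecidableEq ι] (i j : ι) (s t : ZMod 2) (y : Re i j → ZMod 2) : ι → ZMod 2 :=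
  fun v => if h : v = i then s else if h' : v = j then t else y ⟨v, h, h'⟩

section
variable {ι β : Type} [Fintype ι] [DecidableEq ι] [Fintype β] [DecidableEq β]

/-- invariance under the transpositions of indices of the same colour -/
def SymB (c : ι → β) (f : (ι → ZMod 2) → ZMod 2) : Prop :=
  ∀ i j, c i = c j → ∀ x, f (x ∘ Equiv.swap i j) = f x

/-- the colours of odd multiplicity -/
def odd (c : ι → β) : Finset β :=
  Finset.univ.filter fun b => Odd (Finset.univ.filter fun i => c i = b).card

/-- the number of ones of colour `b` -/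
def wt (c : ι → β) (b : β) (x : ι → ZMod 2) : ℕ :=
  (Finset.univ.filter fun i => c i = b ∧ x i = 1).card

/-- the extremal function; `O` is the set of odd colours -/
def Fb (c : ι → β) (O : Finset β) (g : (O → ZMod 2) → ZMod 2) (x : ι → ZMod 2) : ZMod 2 :=
  (∑ b, ((wt c b x).choose 2 : ZMod 2)) + g fun b => (wt c b.1 x : ZMod 2)

end

theorem ex_i {ι : Type} [DecidableEq ι] (i j : ι) (s t : ZMod 2) (y : Re i j → ZMod 2) :
    ex i j s t y i = s := by simp [ex]

theorem ex_j {ι : Type} [DecidableEq ι] {i j : ι} (h : i ≠ j) (s t : ZMod 2) (y : Re i j → ZMod 2) :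
    ex i j s t y j = t := by simp [ex, h.symm]

theorem ex_v {ι : Type} [DecidableEq ι] (i j : ι) (s t : ZMod 2) (y : Re i j → ZMod 2) (v : Re i j) :
    ex i j s t y v.1 = y v := by simp [ex, v.2.1, v.2.2]

theorem ex_self {ι : Type} [DecidableEq ι] (i j : ι) (x : ι → ZMod 2) :
    ex i j (x i) (x j) (fun v => x v.1) = x := by
  funext v
  unfold ex
  split_ifs with h h'
  · rw [h]
  · rw [h']
  · rfl

end Pool.Agent.H.SB694
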