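import Pool.Agent.H.MP_694475_co.Sb.LowY

/-!
# The extremal function

* `Fb_sym`: `wt c b (x ∘ swap i j) = wt c b x` if `c i = c j`.
* `low`: induction on the number of indices, for all `g`. If `c i = c j = b0`, `i ≠ j`, `F = Fb c O g`, `c' = cr c i j`, `F' g' = Fb c' O g'`: by `wt_ex`, `F (ex 0 0 y) = F' g y`, `F (ex 1 1 y) = F' g y + 1`
  (`C(w+2,2) = C(w,2) + 2 w + 1`), `F (ex 0 1 y) = F (ex 1 0 y) = F' g' y + wt c' b0 y` with `g' z = g (z + e)`, `e` = the indicator of `b0` (`C(w+1,2) = C(w,2) + w`). In `ZMod 2` the number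
  `wt c' b0 y` is `∑ v, l v * y v`, `l` = the indicator of `c' v = b0`, so `T (fun y => F (ex 0 1 y)) w = T (F' g') (w + l)`. By `T_ex`: `T F (ex a a w) = ± 2 T (F' g') (w + l)`,
  `T F (ex a (a+1) w) = 2 T (F' g) w`; every `a : ι → ZMod 2` is an `ex` (`ex_self`); and `|T g' a| = |T g a|` (translation).
  If `c` is injective: `wt c b x ≤ 1`, so all `C(wt, 2) = 0`, `wt c (c i) x = x i` in `ZMod 2`; with `e : ι ≃ odd c` (`odd_inj`) `T F (a ∘ e) = T g a`.
-/

set_option autoImplicit false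

namespace Pool.Agent.H.SB694

open Pool.Agent.H.AD694

theorem Fb_sym {ι β : Type} [Fintype ι] [DecidableEq ι] [Fintype β] [DecidableEq β] (c : ι → β)
    (O : Finset β) (g : (O → ZMod 2) → ZMod 2) : SymB c (Fb c O g) := LowX_sym c O g

theorem low {β : Type} [Fintype β] [DecidableEq β] (N : ℕ) : ∀ (ι : Type) [Fintype ι] [DecidableEq ι],
    Fintype.card ι = N → ∀ (c : ι → β) (O : Finset β), O = odd c → ∀ (g : (O → ZMod 2) → ZMod 2) (B : ℤ),
    (∀ a, |T g a| ≤ B) →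
    ∀ a, |T (Fb c O g) a| ≤ 2 ^ ((Fintype.card ι - O.card) / 2) * B := low' N

end Pool.Agent.H.SB694
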