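import Pool.Agent.H.MP_694475_co.Sb.Cnt

/-!
# The extremal function: symmetry, and the case of distinct colours
-/

set_option autoImplicit false

namespace Pool.Agent.H.SB694

open Pool.Agent.H.AD694

section

variable {ι β : Type} [Fintype ι] [DecidableEq ι] [Fintype β] [DecidableEq β]

theorem LowX_swap (c : ι → β) {i j : ι} (h : c i = c j) (k : ι) : c (Equiv.swap i j k) = c k := by
  by_cases h1 : k = i
  · rw [h1, Equiv.swap_apply_left, h]
  · by_cases h2 : k = j
    · rw [h2, Equiv.swap_apply_right, h]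
    · rw [Equiv.swap_apply_of_ne_of_ne h1 h2]

theorem LowX_wt (c : ι → β) {i j : ι} (h : c i = c j) (b : β) (x : ι → ZMod 2) :
    wt c b (x ∘ Equiv.swap i j) = wt c b x := by
  unfold wt
  refine Finset.card_bij (fun k _ => Equiv.swap i j k) ?_ ?_ ?_
  · intro k hk
    rw [Finset.mem_filter] at hk ⊢
    exact ⟨Finset.mem_univ _, by rw [LowX_swap c h]; exact hk.2.1, hk.2.2⟩
  · intro k _ l _ hkl
    exact (Equiv.swap i j).injective hkl
  · intro k hk
    rw [Finset.mem_filter] at hk
    refine ⟨Equiv.swap i j k, ?_, Equiv.swap_apply_self i j k⟩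
    rw [Finset.mem_filter]
    refine ⟨Finset.mem_univ _, by rw [LowX_swap c h]; exact hk.2.1, ?_⟩
    show x (Equiv.swap i j (Equiv.swap i j k)) = 1
    rw [Equiv.swap_apply_self]
    exact hk.2.2

theorem LowX_sym (c : ι → β) (O : Finset β) (g : (O → ZMod 2) → ZMod 2) :
    SymB c (Fb c O g) := by
  intro i j h x
  unfold Fb
  simp only [LowX_wt c h]

theorem LowX_le_one (c : ι → β) (hc : Function.Injective c) (b : β) (x : ι → ZMod 2) :
    wt c b x ≤ 1 := by
  unfold wt
  rw [Finset.card_le_one]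
  intro k hk l hl
  rw [Finset.mem_filter] at hk hl
  exact hc (hk.2.1.trans hl.2.1.symm)

theorem LowX_val (c : ι → β) (hc : Function.Injective c) (i : ι) (x : ι → ZMod 2) :
    (wt c (c i) x : ZMod 2) = x i := by
  rcases zmod2_cases (x i) with h | h
  · have h1 : wt c (c i) x = 0 := by
      unfold wt
      rw [Finset.card_eq_zero, Finset.filter_eq_empty_iff]
      rintro k _ ⟨h2, h3⟩
      rw [hc h2, h] at h3
      exact zero_ne_one h3
    rw [h1, h, Nat.cast_zero]
  · have h1 : wt c (c i) x = 1 := by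
      refine le_antisymm (LowX_le_one c hc _ x) ?_
      unfold wt
      exact Finset.card_pos.2 ⟨i, Finset.mem_filter.2 ⟨Finset.mem_univ i, rfl, h⟩⟩
    rw [h1, h, Nat.cast_one]

/-- The case of distinct colours. -/
theorem low_base (c : ι → β) (hc : Function.Injective c) (O : Finset β) (hO : O = odd c)
    (g : (O → ZMod 2) → ZMod 2) (B : ℤ) (h : ∀ a, |T g a| ≤ B) :
    (∀ a, |T (Fb c O g) a| ≤ B) ∧ Fintype.card ι = O.card := by
  obtain ⟨hin, hsur⟩ := odd_inj c hc
  rw [← hO] at hin hsur
  obtain ⟨e, he⟩ : ∃ e : ι ≃ O, ∀ i, (e i).1 = c i := by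
    refine ⟨Equiv.ofBijective (fun i => (⟨c i, hin i⟩ : O)) ⟨?_, ?_⟩, fun i => rfl⟩
    · intro i j hij
      exact hc (congrArg Subtype.val hij)
    · rintro ⟨b, hb⟩
      obtain ⟨i, hi⟩ := hsur b hb
      exact ⟨i, Subtype.ext hi⟩
  refine ⟨fun a => ?_, by rw [Fintype.card_congr e, Fintype.card_coe]⟩
  have hT : T (Fb c O g) a = T g (fun b => a (e.symm b)) := by
    unfold T
    refine Fintype.sum_equiv (e.arrowCongr (Equiv.refl (ZMod 2))) _ _ fun x => ?_
    have h1 : Fb c O g x = g (fun b => x (e.symm b)) := by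
      unfold Fb
      have h2 : ∑ b, ((wt c b x).choose 2 : ZMod 2) = 0 := by
        refine Finset.sum_eq_zero fun b _ => ?_
        have h3 := LowX_le_one c hc b x
        rw [Nat.choose_eq_zero_of_lt (by omega), Nat.cast_zero]
      have h4 : (fun b : O => (wt c b.1 x : ZMod 2)) = fun b => x (e.symm b) := by
        funext b
        have h5 := he (e.symm b)
        rw [Equiv.apply_symm_apply] at h5
        rw [h5, LowX_val c hc]
      rw [h2, zero_add, h4]
    have h6 : ∑ i, a i * x i = ∑ b, a (e.symm b) * x (e.symm b) :=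
      (Equiv.sum_comp e.symm fun i => a i * x i).symm
    rw [h1, h6]
    rfl
  rw [hT]
  exact h _

end

end Pool.Agent.H.SB694
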