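import Pool.Agent.H.MP_694475_co.Sb.LowX

/-!
# The extremal function: the induction step
-/

set_option autoImplicit false

namespace Pool.Agent.H.SB694

open Pool.Agent.H.AD694

section

variable {ι β : Type} [Fintype ι] [DecidableEq ι] [Fintype β] [DecidableEq β]

theorem LowY_odd_le (c : ι → β) : (odd c).card ≤ Fintype.card ι := by
  have h1 : odd c ⊆ Finset.univ.image c := by
    intro b hb
    unfold odd at hb
    rw [Finset.mem_filter] at hb
    have h2 : (Finset.univ.filter fun i => c i = b).Nonempty := by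
      rw [← Finset.card_pos]
      exact hb.2.pos
    obtain ⟨i, hi⟩ := h2
    rw [Finset.mem_filter] at hi
    exact Finset.mem_image.2 ⟨i, Finset.mem_univ i, hi.2⟩
  exact (Finset.card_le_card h1).trans Finset.card_image_le

theorem LowY_wt (c : ι → β) (b : β) (y : ι → ZMod 2) :
    (wt c b y : ZMod 2) = ∑ v, (if c v = b then 1 else 0) * y v := by
  unfold wt
  rw [Finset.card_filter]
  push_cast
  refine Finset.sum_congr rfl fun v _ => ?_
  rcases zmod2_cases (y v) with h | h <;> by_cases h1 : c v = b <;> simp [h, h1]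

/-- Addition of a linear form. -/
theorem LowY_T_add (f : (ι → ZMod 2) → ZMod 2) (l w : ι → ZMod 2) :
    T (fun y => f y + ∑ v, l v * y v) w = T f (w + l) := by
  unfold T
  refine Finset.sum_congr rfl fun y _ => ?_
  congr 1
  have h1 : ∑ i, (w + l) i * y i = ∑ i, w i * y i + ∑ i, l i * y i := by
    rw [← Finset.sum_add_distrib]
    refine Finset.sum_congr rfl fun i _ => ?_
    rw [Pi.add_apply]
    ring
  rw [h1]
  ring

theorem LowY_T_one (f : (ι → ZMod 2) → ZMod 2) (w : ι → ZMod 2) :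
    T (fun y => f y + 1) w = - T f w := by
  unfold T
  rw [← Finset.sum_neg_distrib]
  refine Finset.sum_congr rfl fun y _ => ?_
  rw [show f y + 1 + ∑ i, w i * y i = (f y + ∑ i, w i * y i) + 1 by ring, sgn_add, sgn_one]
  ring

/-- Translation. -/
theorem LowY_T_shift (g : (ι → ZMod 2) → ZMod 2) (e a : ι → ZMod 2) :
    |T (fun z => g (z + e)) a| = |T g a| := by
  have h1 : T (fun z => g (z + e)) a = sgn (∑ i, a i * e i) * T g a := by
    unfold T
    rw [Finset.mul_sum]
    refine Fintype.sum_equiv (Equiv.addRight e) _ _ fun z => ?_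
    show sgn (g (z + e) + ∑ i, a i * z i) =
      sgn (∑ i, a i * e i) * sgn (g (z + e) + ∑ i, a i * (z + e) i)
    rw [← sgn_add]
    congr 1
    have h2 : ∑ i, a i * (z + e) i = ∑ i, a i * z i + ∑ i, a i * e i := by
      rw [← Finset.sum_add_distrib]
      refine Finset.sum_congr rfl fun i _ => ?_
      rw [Pi.add_apply]
      ring
    rw [h2]
    have h3 := two_zero (∑ i, a i * e i)
    linear_combination -h3
  rw [h1, abs_mul]
  rcases sgn_eq (∑ i, a i * e i) with h | h <;> rw [h] <;> simp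

theorem LowY_sum (c : ι → β) {i j : ι} (hij : i ≠ j) (h : c i = c j) (s t : ZMod 2)
    (y : Re i j → ZMod 2) (ψ : ZMod 2)
    (hψ : (((wt (cr c i j) (c i) y + ((if s = 1 then 1 else 0) + (if t = 1 then 1 else 0))).choose
      2 : ℕ) : ZMod 2) = ((wt (cr c i j) (c i) y).choose 2 : ZMod 2) + ψ) :
    ∑ b, ((wt c b (ex i j s t y)).choose 2 : ZMod 2) =
      ∑ b, ((wt (cr c i j) b y).choose 2 : ZMod 2) + ψ := by
  have h1 : ∀ b, ((wt c b (ex i j s t y)).choose 2 : ZMod 2) =
      ((wt (cr c i j) b y).choose 2 : ZMod 2) + if b = c i then ψ else 0 := by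
    intro b
    rw [wt_ex c hij h]
    by_cases hb : b = c i
    · rw [if_pos hb, if_pos hb, hb]
      exact hψ
    · rw [if_neg hb, if_neg hb, Nat.add_zero, add_zero]
  rw [Finset.sum_congr rfl fun b _ => h1 b, Finset.sum_add_distrib, Finset.sum_ite_eq']
  simp

theorem LowY_arg (c : ι → β) (O : Finset β) {i j : ι} (hij : i ≠ j) (h : c i = c j)
    (s t : ZMod 2) (y : Re i j → ZMod 2) (δ : ZMod 2)
    (hδ : (((if s = 1 then 1 else 0) + (if t = 1 then 1 else 0) : ℕ) : ZMod 2) = δ) :
    (fun b : O => (wt c b.1 (ex i j s t y) : ZMod 2)) =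
      (fun b : O => (wt (cr c i j) b.1 y : ZMod 2)) + fun b : O => if b.1 = c i then δ else 0 := by
  funext b
  rw [Pi.add_apply, wt_ex c hij h]
  by_cases hb : b.1 = c i
  · rw [if_pos hb, if_pos hb, Nat.cast_add, hδ]
  · rw [if_neg hb, if_neg hb, Nat.add_zero, add_zero]

theorem LowY_00 (c : ι → β) (O : Finset β) (g : (O → ZMod 2) → ZMod 2) {i j : ι} (hij : i ≠ j)
    (h : c i = c j) (y : Re i j → ZMod 2) :
    Fb c O g (ex i j 0 0 y) = Fb (cr c i j) O g y := by
  unfold Fb
  rw [LowY_sum c hij h 0 0 y 0 (by simp), LowY_arg c O hij h 0 0 y 0 (by simp), add_zero]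
  congr 2
  funext b
  simp

theorem LowY_11 (c : ι → β) (O : Finset β) (g : (O → ZMod 2) → ZMod 2) {i j : ι} (hij : i ≠ j)
    (h : c i = c j) (y : Re i j → ZMod 2) :
    Fb c O g (ex i j 1 1 y) = Fb (cr c i j) O g y + 1 := by
  have h2 : (2 : ZMod 2) = 0 := by decide
  unfold Fb
  rw [LowY_sum c hij h 1 1 y 1 (by
    rw [if_pos rfl]
    have h3 : ∀ w : ℕ, (w + (1 + 1)).choose 2 = w.choose 2 + 2 * w + 1 := by
      intro w
      rw [show w + (1 + 1) = (w + 1) + 1 from rfl, Nat.choose_succ_succ' (w + 1) 1,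
        Nat.choose_succ_succ' w 1, Nat.choose_one_right, Nat.choose_one_right]
      ring
    rw [h3]
    push_cast
    rw [h2]
    ring), LowY_arg c O hij h 1 1 y 0 (by rw [if_pos rfl]; push_cast; exact h2)]
  have h4 : (fun b : O => (wt (cr c i j) b.1 y : ZMod 2)) +
      (fun b : O => if b.1 = c i then (0 : ZMod 2) else 0) =
      fun b : O => (wt (cr c i j) b.1 y : ZMod 2) := by
    funext b
    simp
  rw [h4]
  ring

theorem LowY_mid (c : ι → β) (O : Finset β) (g : (O → ZMod 2) → ZMod 2) {i j : ι} (hij : i ≠ j)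
    (h : c i = c j) (s t : ZMod 2) (hst : (s = 0 ∧ t = 1) ∨ (s = 1 ∧ t = 0))
    (y : Re i j → ZMod 2) :
    Fb c O g (ex i j s t y) =
      Fb (cr c i j) O (fun z => g (z + fun b : O => if b.1 = c i then 1 else 0)) y +
        ∑ v, (if cr c i j v = c i then 1 else 0) * y v := by
  have h1 : (if s = 1 then 1 else 0) + (if t = 1 then 1 else 0) = 1 := by
    rcases hst with ⟨rfl, rfl⟩ | ⟨rfl, rfl⟩ <;> simp
  unfold Fb
  rw [LowY_sum c hij h s t y (wt (cr c i j) (c i) y : ZMod 2) (by
    rw [h1, Nat.choose_succ_succ' _ 1, Nat.choose_one_right]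
    push_cast
    ring), LowY_arg c O hij h s t y 1 (by rw [h1, Nat.cast_one]), ← LowY_wt]
  ring

theorem LowY_step (c : ι → β) (O : Finset β) (g : (O → ZMod 2) → ZMod 2) {i j : ι} (hij : i ≠ j)
    (h : c i = c j) (a : ι → ZMod 2) {M : ℤ}
    (h1 : ∀ w, |T (Fb (cr c i j) O g) w| ≤ M)
    (h2 : ∀ w, |T (Fb (cr c i j) O
      (fun z => g (z + fun b : O => if b.1 = c i then 1 else 0))) w| ≤ M) :
    |T (Fb c O g) a| ≤ 2 * M := by
  obtain ⟨w, hw⟩ : ∃ w : Re i j → ZMod 2, w = fun v => a v.1 := ⟨_, rfl⟩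
  have ha : a = ex i j (a i) (a j) w := by rw [hw, ex_self]
  obtain ⟨P, hP⟩ : ∃ P, P = T (Fb (cr c i j) O g) w := ⟨_, rfl⟩
  obtain ⟨Q, hQ⟩ : ∃ Q, Q = T (Fb (cr c i j) O
    (fun z => g (z + fun b : O => if b.1 = c i then 1 else 0)))
    (w + fun v => if cr c i j v = c i then 1 else 0) := ⟨_, rfl⟩
  have e00 : T (fun y => Fb c O g (ex i j 0 0 y)) w = P := by
    rw [hP]
    congr 1
    funext y
    exact LowY_00 c O g hij h y
  have e11 : T (fun y => Fb c O g (ex i j 1 1 y)) w = -P := by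
    rw [hP, ← LowY_T_one]
    congr 1
    funext y
    exact LowY_11 c O g hij h y
  have e01 : T (fun y => Fb c O g (ex i j 0 1 y)) w = Q := by
    rw [hQ, ← LowY_T_add]
    congr 1
    funext y
    exact LowY_mid c O g hij h 0 1 (Or.inl ⟨rfl, rfl⟩) y
  have e10 : T (fun y => Fb c O g (ex i j 1 0 y)) w = Q := by
    rw [hQ, ← LowY_T_add]
    congr 1
    funext y
    exact LowY_mid c O g hij h 1 0 (Or.inr ⟨rfl, rfl⟩) y
  have hPM : |P| ≤ M := by rw [hP]; exact h1 w
  have hQM : |Q| ≤ M := by rw [hQ]; exact h2 _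
  rw [ha, T_ex hij, e00, e11, e01, e10]
  rw [abs_le] at hPM hQM ⊢
  have h10 : (1 : ZMod 2) + 1 = 0 := by decide
  rcases zmod2_cases (a i) with hi | hi <;> rcases zmod2_cases (a j) with hj | hj <;>
    rw [hi, hj] <;> simp only [add_zero, zero_add, h10, sgn_zero, sgn_one] <;>
    constructor <;> linarith

end

theorem low' {β : Type} [Fintype β] [DecidableEq β] (N : ℕ) :
    ∀ (ι : Type) [Fintype ι] [DecidableEq ι],
    Fintype.card ι = N → ∀ (c : ι → β) (O : Finset β), O = odd c →
    ∀ (g : (O → ZMod 2) → ZMod 2) (B : ℤ), (∀ a, |T g a| ≤ B) →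
    ∀ a, |T (Fb c O g) a| ≤ 2 ^ ((Fintype.card ι - O.card) / 2) * B := by
  induction N using Nat.strong_induction_on with
  | _ N ih =>
    intro ι _ _ hN c O hO g B hB a
    by_cases hc : Function.Injective c
    · obtain ⟨h1, h2⟩ := low_base c hc O hO g B hB
      rw [h2, Nat.sub_self, Nat.zero_div, pow_zero, one_mul]
      exact h1 a
    · obtain ⟨i, j, hcij, hij⟩ : ∃ i j, c i = c j ∧ i ≠ j := by
        by_contra hcon
        push Not at hcon
        exact hc fun i j h => hcon i j h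
      have hcard := card_Re hij
      have hO' : O = odd (cr c i j) := by rw [hO, odd_Re c hij hcij]
      have hle : O.card ≤ Fintype.card (Re i j) := by
        rw [hO']
        exact LowY_odd_le _
      have hstep := LowY_step c O g hij hcij a
        (M := 2 ^ ((Fintype.card (Re i j) - O.card) / 2) * B)
        (fun w => ih (Fintype.card (Re i j)) (by omega) (Re i j) rfl (cr c i j) O hO' g B hB w)
        (fun w => ih (Fintype.card (Re i j)) (by omega) (Re i j) rfl (cr c i j) O hO' _ B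
          (fun a' => by rw [LowY_T_shift]; exact hB a') w)
      have he : (Fintype.card ι - O.card) / 2 = (Fintype.card (Re i j) - O.card) / 2 + 1 := by
        omega
      rw [he, pow_succ]
      linarith

end Pool.Agent.H.SB694
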