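import Pool.Agent.H.MP_694475_co.Sb.Def

/-!
# Splitting off two variables

`T_ex`: the sum over all `x : ι → ZMod 2` is the sum over `(s, t, y)` by the bijection `(s, t, y) ↦ ex i j s t y`.
-/

set_option autoImplicit false

namespace Pool.Agent.H.SB694

open Pool.Agent.H.AD694

variable {ι : Type} [Fintype ι] [DecidableEq ι]

private theorem Rec_mem {i j v : ι} :
    v ∈ (Finset.univ.erase i).erase j ↔ v ≠ i ∧ v ≠ j := by
  simp only [Finset.mem_erase, Finset.mem_univ, and_true]
  exact and_comm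

private theorem Rec_split {i j : ι} (hij : i ≠ j) (F : ι → ZMod 2) :
    ∑ v, F v = F i + (F j + ∑ v : Re i j, F v.1) := by
  rw [← Finset.add_sum_erase Finset.univ F (Finset.mem_univ i),
    ← Finset.add_sum_erase (Finset.univ.erase i) F
      (Finset.mem_erase.2 ⟨hij.symm, Finset.mem_univ j⟩)]
  congr 2
  exact Finset.sum_subtype _ (fun v => Rec_mem) F

private theorem Rec_two (g : ZMod 2 → ℤ) : ∑ s, g s = g 0 + g 1 :=
  Fin.sum_univ_two g

private def Rec_e {i j : ι} (hij : i ≠ j) :
    (ZMod 2 × ZMod 2 × (Re i j → ZMod 2)) ≃ (ι → ZMod 2) where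
  toFun p := ex i j p.1 p.2.1 p.2.2
  invFun x := (x i, x j, fun v => x v.1)
  left_inv p := by
    obtain ⟨s, t, y⟩ := p
    refine Prod.ext (ex_i i j s t y) (Prod.ext (ex_j hij s t y) ?_)
    funext v
    exact ex_v i j s t y v
  right_inv x := ex_self i j x

theorem T_ex {i j : ι} (hij : i ≠ j) (f : (ι → ZMod 2) → ZMod 2) (a b : ZMod 2)
    (w : Re i j → ZMod 2) :
    T f (ex i j a b w) = T (fun y => f (ex i j 0 0 y)) w + sgn b * T (fun y => f (ex i j 0 1 y)) w +
      sgn a * T (fun y => f (ex i j 1 0 y)) w + sgn (a + b) * T (fun y => f (ex i j 1 1 y)) w := by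
  have key : ∀ s t : ZMod 2, ∑ y : Re i j → ZMod 2,
      sgn (f (ex i j s t y) + ∑ v, ex i j a b w v * ex i j s t y v) =
      sgn (a * s + b * t) * T (fun y => f (ex i j s t y)) w := by
    intro s t
    unfold T
    rw [Finset.mul_sum]
    refine Finset.sum_congr rfl fun y _ => ?_
    rw [Rec_split hij, ex_i, ex_i, ex_j hij, ex_j hij, ← sgn_add]
    have h1 : ∑ v : Re i j, ex i j a b w v.1 * ex i j s t y v.1 = ∑ v : Re i j, w v * y v :=
      Finset.sum_congr rfl fun v _ => by rw [ex_v, ex_v]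
    rw [h1]
    congr 1
    ring
  have h1 : T f (ex i j a b w) = ∑ s : ZMod 2, ∑ t : ZMod 2, ∑ y : Re i j → ZMod 2,
      sgn (f (ex i j s t y) + ∑ v, ex i j a b w v * ex i j s t y v) := by
    unfold T
    rw [← (Rec_e hij).sum_comp, Fintype.sum_prod_type]
    refine Finset.sum_congr rfl fun s _ => ?_
    rw [Fintype.sum_prod_type]
    rfl
  rw [h1, Rec_two, Rec_two, Rec_two, key, key, key, key]
  simp only [mul_zero, mul_one, add_zero, zero_add, sgn_zero, one_mul]
  ring

theorem card_Re {i j : ι} (hij : i ≠ j) : Fintype.card ι = Fintype.card (Re i j) + 2 := by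
  have h1 : Fintype.card (Re i j) = ((Finset.univ.erase i).erase j).card :=
    Fintype.card_of_subtype _ fun v => Rec_mem
  have h2 := Finset.card_erase_add_one (Finset.mem_univ i)
  have h3 := Finset.card_erase_add_one
    (Finset.mem_erase.2 ⟨hij.symm, Finset.mem_univ j⟩ : j ∈ Finset.univ.erase i)
  rw [Finset.card_univ] at h2
  omega

end Pool.Agent.H.SB694
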