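import Pool.Agent.H.MP_694475_co.Sb.Cnt

/-!
# The upper bound

Induction on the number of indices. If `c i = c j`, `i ≠ j`: `u y = f (ex i j 0 1 y)` is `SymB (cr c i j)` (`ex i j 0 1 (y ∘ swap k l) = (ex i j 0 1 y) ∘ swap k.1 l.1`), and
`f (ex i j 1 0 y) = u y` (swap of `i`, `j`). By `T_ex`, `T f (ex i j a a w) = X + 2 sgn a T u w` with `X` independent of `a`, so for `a = 0` or `a = 1` the absolute value is at
least `2 |T u w|`; `odd_Re`, `card_Re`. Otherwise `c` is injective, `e : ι ≃ odd c` by `odd_inj`, and `T f (a ∘ e) = T (fun z => f (z ∘ e)) a`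
(`Equiv.sum_comp (Equiv.arrowCongr ..)`); `card ι = (odd c).card`.
-/

set_option autoImplicit false

namespace Pool.Agent.H.SB694

open Pool.Agent.H.AD694

private theorem Up_le {ι β : Type} [Fintype ι] [DecidableEq ι] [Fintype β] [DecidableEq β]
    (c : ι → β) :
    (odd c).card ≤ Fintype.card ι ∧ (odd c).card % 2 = Fintype.card ι % 2 := by
  have h1 : Fintype.card ι = ∑ b, (Finset.univ.filter fun i => c i = b).card := by
    rw [← Finset.card_univ]
    exact Finset.card_eq_sum_card_fiberwise (fun i _ => Finset.mem_coe.2 (Finset.mem_univ (c i)))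
  have h2 : (odd c).card = ∑ b, (Finset.univ.filter fun i => c i = b).card % 2 := by
    unfold odd
    rw [Finset.card_filter]
    refine Finset.sum_congr rfl fun b _ => ?_
    by_cases h : Odd (Finset.univ.filter fun i => c i = b).card
    · rw [if_pos h, Nat.odd_iff.1 h]
    · rw [if_neg h]
      rw [Nat.not_odd_iff_even] at h
      rw [Nat.even_iff.1 h]
  constructor
  · rw [h1, h2]
    exact Finset.sum_le_sum fun b _ => Nat.mod_le _ _
  · rw [h1, h2, ← Finset.sum_nat_mod]

private theorem Up_swap {ι : Type} [DecidableEq ι] {i j : ι} (s t : ZMod 2) (k l : Re i j)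
    (y : Re i j → ZMod 2) :
    ex i j s t (y ∘ Equiv.swap k l) = (ex i j s t y) ∘ Equiv.swap k.1 l.1 := by
  funext v
  show ex i j s t (y ∘ Equiv.swap k l) v = ex i j s t y (Equiv.swap k.1 l.1 v)
  by_cases h1 : v = i
  · rw [h1, ex_i, Equiv.swap_apply_of_ne_of_ne k.2.1.symm l.2.1.symm, ex_i]
  by_cases h2 : v = j
  · have hij : i ≠ j := fun h => h1 (h2.trans h.symm)
    rw [h2, ex_j hij, Equiv.swap_apply_of_ne_of_ne k.2.2.symm l.2.2.symm, ex_j hij]
  have e1 : ex i j s t (y ∘ Equiv.swap k l) v = y (Equiv.swap k l ⟨v, h1, h2⟩) :=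
    ex_v i j s t (y ∘ Equiv.swap k l) ⟨v, h1, h2⟩
  rw [e1]
  by_cases h3 : v = k.1
  · have h4 : (⟨v, h1, h2⟩ : Re i j) = k := Subtype.ext h3
    rw [h4, h3, Equiv.swap_apply_left, Equiv.swap_apply_left, ex_v]
  by_cases h5 : v = l.1
  · have h4 : (⟨v, h1, h2⟩ : Re i j) = l := Subtype.ext h5
    rw [h4, h5, Equiv.swap_apply_right, Equiv.swap_apply_right, ex_v]
  have h6 : (⟨v, h1, h2⟩ : Re i j) ≠ k := fun h => h3 (congrArg Subtype.val h)
  have h7 : (⟨v, h1, h2⟩ : Re i j) ≠ l := fun h => h5 (congrArg Subtype.val h)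
  rw [Equiv.swap_apply_of_ne_of_ne h6 h7, Equiv.swap_apply_of_ne_of_ne h3 h5]
  exact (ex_v i j s t y ⟨v, h1, h2⟩).symm

private theorem Up_swap' {ι : Type} [DecidableEq ι] {i j : ι} (hij : i ≠ j)
    (y : Re i j → ZMod 2) :
    (ex i j 0 1 y) ∘ Equiv.swap i j = ex i j 1 0 y := by
  funext v
  show ex i j 0 1 y (Equiv.swap i j v) = ex i j 1 0 y v
  by_cases h1 : v = i
  · rw [h1, Equiv.swap_apply_left, ex_j hij, ex_i]
  by_cases h2 : v = j
  · rw [h2, Equiv.swap_apply_right, ex_j hij, ex_i]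
  rw [Equiv.swap_apply_of_ne_of_ne h1 h2]
  exact (ex_v i j 0 1 y ⟨v, h1, h2⟩).trans (ex_v i j 1 0 y ⟨v, h1, h2⟩).symm

private theorem Up_equiv {ι κ : Type} [Fintype ι] [DecidableEq ι] [Fintype κ] [DecidableEq κ]
    (e : ι ≃ κ) (f : (ι → ZMod 2) → ZMod 2) (a : κ → ZMod 2) :
    T f (a ∘ e) = T (fun z : κ → ZMod 2 => f (z ∘ e)) a := by
  unfold T
  rw [← Equiv.sum_comp (Equiv.arrowCongr e.symm (Equiv.refl (ZMod 2)))]
  refine Finset.sum_congr rfl fun z _ => ?_
  have e1 : (Equiv.arrowCongr e.symm (Equiv.refl (ZMod 2))) z = z ∘ e := by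
    funext v
    rfl
  rw [e1, ← Equiv.sum_comp e (fun b => a b * z b)]
  rfl

theorem up {β : Type} [Fintype β] [DecidableEq β] (N : ℕ) : ∀ (ι : Type) [Fintype ι] [DecidableEq ι],
    Fintype.card ι = N → ∀ (c : ι → β) (f : (ι → ZMod 2) → ZMod 2), SymB c f → ∀ B : ℤ,
    (∀ g : (odd c → ZMod 2) → ZMod 2, ∃ a, B ≤ |T g a|) →
    ∃ a, 2 ^ ((Fintype.card ι - (odd c).card) / 2) * B ≤ |T f a| := by
  induction N using Nat.strong_induction_on with
  | _ N ih =>
    intro ι _ _ hN c f hf B hB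
    by_cases hc : Function.Injective c
    · obtain ⟨h1, h2⟩ := odd_inj c hc
      obtain ⟨e, he⟩ : ∃ e : ι ≃ odd c, ∀ i, e i = ⟨c i, h1 i⟩ := by
        refine ⟨Equiv.ofBijective (fun i => (⟨c i, h1 i⟩ : odd c)) ⟨?_, ?_⟩, fun i => rfl⟩
        · intro i j hij
          exact hc (congrArg Subtype.val hij)
        · rintro ⟨b, hb⟩
          obtain ⟨i, hi⟩ := h2 b hb
          exact ⟨i, Subtype.ext hi⟩
      have h3 : Fintype.card ι = (odd c).card := by
        rw [Fintype.card_congr e, Fintype.card_coe]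
      obtain ⟨a, ha⟩ := hB (fun z => f (z ∘ e))
      refine ⟨a ∘ e, ?_⟩
      rw [h3, Nat.sub_self, Nat.zero_div, pow_zero, one_mul, Up_equiv e f a]
      exact ha
    · obtain ⟨i, j, hcij, hij⟩ : ∃ i j, c i = c j ∧ i ≠ j := by
        unfold Function.Injective at hc
        push Not at hc
        exact hc
      have hcard := card_Re hij
      have hodd := odd_Re c hij hcij
      have hu : SymB (cr c i j) (fun y => f (ex i j 0 1 y)) := by
        intro k l hkl y
        show f (ex i j 0 1 (y ∘ Equiv.swap k l)) = f (ex i j 0 1 y)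
        rw [Up_swap]
        exact hf k.1 l.1 hkl _
      obtain ⟨w, hw⟩ := ih (Fintype.card (Re i j)) (by omega) (Re i j) rfl (cr c i j)
        (fun y => f (ex i j 0 1 y)) hu B (by
          rw [hodd]
          exact hB)
      have hle := (Up_le (cr c i j)).1
      rw [hodd] at hw hle
      have h10 : (fun y => f (ex i j 1 0 y)) = (fun y => f (ex i j 0 1 y)) := by
        funext y
        rw [← Up_swap' hij y]
        exact hf i j hcij _
      have hexp : (Fintype.card ι - (odd c).card) / 2 =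
          (Fintype.card (Re i j) - (odd c).card) / 2 + 1 := by omega
      obtain ⟨τ, hτ⟩ : ∃ τ, τ = T (fun y => f (ex i j 0 1 y)) w := ⟨_, rfl⟩
      obtain ⟨X, hX⟩ : ∃ X, X = T (fun y => f (ex i j 0 0 y)) w := ⟨_, rfl⟩
      obtain ⟨Y, hY⟩ : ∃ Y, Y = T (fun y => f (ex i j 1 1 y)) w := ⟨_, rfl⟩
      have t0 := T_ex hij f 0 0 w
      have t1 := T_ex hij f 1 1 w
      have e11 : (1 : ZMod 2) + 1 = 0 := by decide
      rw [h10, ← hτ, ← hX, ← hY, add_zero, sgn_zero] at t0
      rw [h10, ← hτ, ← hX, ← hY, e11, sgn_zero, sgn_one] at t1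
      rw [← hτ] at hw
      rw [hexp, pow_succ]
      have hkey : 2 ^ ((Fintype.card (Re i j) - (odd c).card) / 2) * 2 * B ≤ 2 * |τ| := by
        have h5 : (2 : ℤ) ^ ((Fintype.card (Re i j) - (odd c).card) / 2) * 2 * B =
            2 * (2 ^ ((Fintype.card (Re i j) - (odd c).card) / 2) * B) := by ring
        rw [h5]
        linarith
      by_contra hcon
      push Not at hcon
      have c0 := hcon (ex i j 0 0 w)
      have c1 := hcon (ex i j 1 1 w)
      rw [t0] at c0
      rw [t1] at c1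
      have h8 : 4 * |τ| ≤ |X + 1 * τ + 1 * τ + 1 * Y| + |X + -1 * τ + -1 * τ + 1 * Y| := by
        have h9 : |4 * τ| ≤ |X + 1 * τ + 1 * τ + 1 * Y| + |X + -1 * τ + -1 * τ + 1 * Y| := by
          have e9 : 4 * τ = (X + 1 * τ + 1 * τ + 1 * Y) - (X + -1 * τ + -1 * τ + 1 * Y) := by
            ring
          rw [e9]
          exact abs_sub _ _
        rw [abs_mul] at h9
        have e10 : |(4 : ℤ)| = 4 := by norm_num
        rw [e10] at h9
        exact h9
      linarith

theorem odd_le {ι β : Type} [Fintype ι] [DecidableEq ι] [Fintype β] [DecidableEq β] (c : ι → β) :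
    (odd c).card ≤ Fintype.card ι ∧ (odd c).card % 2 = Fintype.card ι % 2 :=
  Up_le c

end Pool.Agent.H.SB694
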